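import Pool.Agent.Y1.HZ.CritDefs

/-!
# Hodge classes on noncommutative varieties `D(A) ⊠ 𝒟`: definitions

Let `Z` be a smooth proper complex variety. Its rational topological K-theory
`K^top_0(Z) ⊕ K^top_1(Z)` is, by the Chern character, the rational cohomology of `Z`; it is given by
`V : Coh v`, a rational space `ℚ ^ v` with a Hodge operator `V.z`, the multiplication by `p - q` on the
classes of type `(p, q)`. (So its kernel is the part `HH_0`, and its eigenspaces are the Hochschild
homology groups.)

An admissible subcategory `𝒟` of `D^perf(Z)` is given by the projector `P` of the topological K-theory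
defined by the projection functor onto `𝒟`. It commutes with the Hodge operator, and
`K^top(𝒟) ⊗ ℚ` is its image, with the induced Hodge structure.

Let `A` be an abelian variety, given by the inclusion `per : W → T` of its rational homology in its
tangent space. The topological K-theory of `A × Z` is `HAZ W v`: the sum of the spaces of alternating
forms on `W` with values in `K^top(Z)`. The admissible subcategory `D(A) ⊠ 𝒟` of `D^perf(A × Z)` is
generated by the products of objects of `D(A)` and of `𝒟`; its topological K-theory consists of the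
forms with values in `K^top(𝒟)`.
-/

set_option autoImplicit false

namespace Pool.Agent.R299.NCH

open Matrix NumberField Module Pool.Agent.H204R3.CM Pool.Agent.TH131.GHC Pool.Agent.TH504.VY
  Pool.Agent.Y1.HZ Pool.Agent.TH170.MF

/-- A rational matrix as a complex matrix. -/
def cm {m n : ℕ} (P : Matrix (Fin m) (Fin n) ℚ) : Matrix (Fin m) (Fin n) ℂ :=
  P.map (Rat.cast : ℚ → ℂ)

/-- `P` is the projector of the topological K-theory `V` that is defined by the projection functor
onto an admissible subcategory: it is idempotent and commutes with the Hodge operator. -/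
structure IsProjector {v : ℕ} (V : Coh v) (P : Matrix (Fin v) (Fin v) ℚ) : Prop where
  idem : P * P = P
  hodge : cm P * V.z = V.z * cm P

/-- The admissible subcategory `𝒟` with projector `P` is unrelated to the field `E`: for all
`w ≠ 0` in `K^top(𝒟) ⊗ ℂ` all of whose conjugates `σ w` are of pure type, with `p - q = d σ`, a function
`n` on the complex embeddings of `E` with `n (conj φ) = - n φ` which is invariant under all
automorphisms `τ` with `d (σ ∘ τ) = d σ` for all `σ` is zero. -/
def Unrelated {v : ℕ} (V : Coh v) (P : Matrix (Fin v) (Fin v) ℚ) (E : Type) [Field E] : Prop :=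
  ∀ (w : Fin v → ℂ) (d : (ℂ ≃+* ℂ) → ℤ), w ≠ 0 → cm P *ᵥ w = w → HasTypes V w d →
    ∀ n : (E →+* ℂ) → ℚ, (∀ φ, n (ComplexEmbedding.conjugate φ) = - n φ) →
      (∀ τ : ℂ ≃+* ℂ, (∀ σ, d (τ.trans σ) = d σ) →
        ∀ φ : E →+* ℂ, n ((τ : ℂ →+* ℂ).comp φ) = n φ) → n = 0

/-- `x` is a Hodge class in `K^top(𝒟) ⊗ ℚ`. -/
def IsHodgeD {v : ℕ} (V : Coh v) (P : Matrix (Fin v) (Fin v) ℚ) (x : Fin v → ℚ) : Prop :=
  P *ᵥ x = x ∧ IsHodgeOn V x

variable {W T : Type} [AddCommGroup W] [Module ℚ W] [AddCommGroup T] [Module ℂ T]

/-- `F` is a Hodge class in `K^top(D(A) ⊠ 𝒟) ⊗ ℚ`. -/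
def IsHodgeAD (per : W →+ T) {v : ℕ} (V : Coh v) (P : Matrix (Fin v) (Fin v) ℚ) (F : HAZ W v) :
    Prop :=
  (∀ (k : ℕ) (w : Fin k → W), P *ᵥ F k w = F k w) ∧ IsHodgeOnProduct per V F

/-- The span of the products `f ⊗ x` of a combination `f` of products of divisor classes on `A` and of a
Hodge class `x` of `𝒟`. -/
noncomputable def boxSpan (per : W →+ T) {v : ℕ} (V : Coh v) (P : Matrix (Fin v) (Fin v) ℚ) :
    Submodule ℚ (HAZ W v) :=
  Submodule.span ℚ {F | ∃ (k : ℕ) (f : W [⋀^Fin k]→ₗ[ℚ] ℚ) (x : Fin v → ℚ),
    f ∈ divisorSpan per k ∧ IsHodgeD V P x ∧ F = cross f x}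

/-- `alg` and `algA` are the images of `K_0(𝒟) ⊗ ℚ` and of `K_0(D(A) ⊠ 𝒟) ⊗ ℚ`: the product of a
product of divisor classes on `A` (a combination of Chern characters of objects of `D(A)`) and the
class of an object of `𝒟` is in `algA`, and the restriction of an object of `D(A) ⊠ 𝒟` to the fibre
over the origin of `A` is an object of `𝒟`. -/
structure IsObjectClasses (per : W →+ T) {v : ℕ} (alg : Submodule ℚ (Fin v → ℚ))
    (algA : Submodule ℚ (HAZ W v)) : Prop where
  box : ∀ k, ∀ f ∈ divisorSpan per k, ∀ x ∈ alg, cross f x ∈ algA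
  fibre : ∀ F ∈ algA, F 0 (fun l => l.elim0) ∈ alg

/-- All Hodge classes of `D(A) ⊠ 𝒟` are sums of products of combinations of products of divisor classes
on `A` and Hodge classes of `𝒟`. -/
def HodgeInBoxSpan (per : W →+ T) {v : ℕ} (V : Coh v) (P : Matrix (Fin v) (Fin v) ℚ) : Prop :=
  ∀ F, IsHodgeAD per V P F → F ∈ boxSpan per V P

/-- The noncommutative Hodge conjecture for `𝒟`: all Hodge classes are in the span `alg` of the classes
of objects. -/
def NCHodge {v : ℕ} (V : Coh v) (P : Matrix (Fin v) (Fin v) ℚ) (alg : Submodule ℚ (Fin v → ℚ)) :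
    Prop :=
  ∀ x, IsHodgeD V P x → x ∈ alg

/-- The noncommutative Hodge conjecture for `D(A) ⊠ 𝒟`: all Hodge classes are in the span `algA` of the
classes of objects. -/
def NCHodgeA (per : W →+ T) {v : ℕ} (V : Coh v) (P : Matrix (Fin v) (Fin v) ℚ)
    (algA : Submodule ℚ (HAZ W v)) : Prop :=
  ∀ F, IsHodgeAD per V P F → F ∈ algA

/-- The noncommutative Hodge conjecture for `D(A) ⊠ 𝒟` is equivalent to the noncommutative Hodge
conjecture for `𝒟`. -/
def NCHodgeEquiv (per : W →+ T) {v : ℕ} (V : Coh v) (P : Matrix (Fin v) (Fin v) ℚ) : Prop :=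
  ∀ alg algA, IsObjectClasses per alg algA → (NCHodgeA per V P algA ↔ NCHodge V P alg)

/-- For the products `A` of copies of the abelian varieties of CM type `(E i, Φ i)`, and for all
admissible subcategories `𝒟` unrelated to the fields `E i`: all Hodge classes of `D(A) ⊠ 𝒟` are sums of
products of combinations of products of divisor classes on `A` and Hodge classes of `𝒟`, and the
noncommutative Hodge conjecture for `D(A) ⊠ 𝒟` is equivalent to the noncommutative Hodge conjecture
for `𝒟`. -/
def NCHodgeTimes {ι : Type} {E : ι → Type} [∀ i, Field (E i)] (Φ : ∀ i, Set (E i →+* ℂ))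
    [∀ i, NumberField (E i)] : Prop :=
  ∀ (J : Type) [Fintype J] (t : J → ι) (v : ℕ) (V : Coh v) (P : Matrix (Fin v) (Fin v) ℚ),
    IsProjector V P → (∀ i, Unrelated V P (E i)) →
      HodgeInBoxSpan (per Φ t) V P ∧ NCHodgeEquiv (per Φ t) V P

/-- The admissible subcategory `𝒟` is unrelated to a CM field `E` if the rank of `K^top(𝒟)` is less than
twice the dimension of each minimal nonzero space of odd functions on the complex embeddings of `E`
that is stable under the automorphisms of the complex numbers. -/
def RankCriterion : Prop :=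
  ∀ (E : Type) [Field E] [NumberField E] [IsCMField E] (v : ℕ) (V : Coh v)
    (P : Matrix (Fin v) (Fin v) ℚ), IsProjector V P →
    (∀ S ∈ minimalSpaces E, P.rank < 2 * finrank ℚ S) → Unrelated V P E

end Pool.Agent.R299.NCH
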