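import Pool.Agent.R299.NCH.Restrict

/-!
# The noncommutative Hodge conjecture for `D(A) ⊠ 𝒟`
-/

set_option autoImplicit false
set_option linter.unusedSectionVars false
set_option linter.unusedVariables false

namespace Pool.Agent.R299.NCH

open Matrix NumberField Module Pool.Agent.H204R3.CM Pool.Agent.TH131.GHC Pool.Agent.TH504.VY
  Pool.Agent.Y1.HZ Pool.Agent.TH170.MF Pool.Agent.TH504.CB

noncomputable section

variable {v : ℕ} {V : Coh v} {P : Matrix (Fin v) (Fin v) ℚ}
variable {W T : Type} [AddCommGroup W] [Module ℚ W] [AddCommGroup T] [Module ℂ T] (per : W →+ T)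

/-- The class `1 ⊗ x`. -/
def oneBox (W : Type) [AddCommGroup W] [Module ℚ W] (x : Fin v → ℚ) : HAZ W v :=
  cross (AlternatingMap.constOfIsEmpty ℚ W (Fin 0) (1 : ℚ)) x

theorem oneBox_zero (x : Fin v → ℚ) (w : Fin 0 → W) : oneBox W x 0 w = x := by
  rw [oneBox, cross, Pi.single_eq_same]
  change (1 : ℚ) • x = x
  exact one_smul _ _

theorem oneBox_pos (x : Fin v → ℚ) {k : ℕ} (hk : k ≠ 0) : oneBox W x k = 0 := by
  rw [oneBox, cross, Pi.single_eq_of_ne hk]

theorem oneBox_hodge {x : Fin v → ℚ} (hx : IsHodgeD V P x) : IsHodgeAD per V P (oneBox W x) := by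
  refine ⟨?_, ?_⟩
  · intro k w
    by_cases hk : k = 0
    · subst hk
      rw [oneBox_zero, hx.1]
    · rw [oneBox_pos x hk]
      exact Matrix.mulVec_zero P
  · refine ⟨Pi.single 0 (AlternatingMap.constOfIsEmpty ℝ T (Fin 0) (cv x)), ?_, ?_⟩
    · intro k w
      by_cases hk : k = 0
      · subst hk
        rw [Pi.single_eq_same, oneBox_zero]
        rfl
      · rw [Pi.single_eq_of_ne hk, oneBox_pos x hk]
        funext b
        change (0 : ℂ) = (((0 : Fin v → ℚ) b : ℚ) : ℂ)
        simp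
    · intro k u
      rw [Int.cast_zero, zero_smul]
      by_cases hk : k = 0
      · subst hk
        have h1 : (Pi.single 0 (AlternatingMap.constOfIsEmpty ℝ T (Fin 0) (cv x)) : HAZC T v) 0 =
            AlternatingMap.constOfIsEmpty ℝ T (Fin 0) (cv x) := Pi.single_eq_same _ _
        simp only [h1]
        have h2 : V.z *ᵥ cv x = 0 := hx.2
        change (-Complex.I) • ∑ l : Fin 0, _ + V.z *ᵥ cv x = 0
        rw [h2, Finset.univ_eq_empty, Finset.sum_empty, smul_zero, add_zero]
      · have h1 : (Pi.single 0 (AlternatingMap.constOfIsEmpty ℝ T (Fin 0) (cv x)) : HAZC T v) k =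
            0 := Pi.single_eq_of_ne hk _
        simp only [h1]
        change (-Complex.I) • ∑ l : Fin k, (0 : Fin v → ℂ) + V.z *ᵥ (0 : Fin v → ℂ) = 0
        rw [Finset.sum_const_zero, smul_zero, Matrix.mulVec_zero, add_zero]

theorem equiv_of_box (h : ∀ F, IsHodgeAD per V P F → F ∈ boxSpan per V P)
    {alg : Submodule ℚ (Fin v → ℚ)} {algA : Submodule ℚ (HAZ W v)}
    (hC : IsObjectClasses per alg algA) :
    (∀ F, IsHodgeAD per V P F → F ∈ algA) ↔ ∀ x, IsHodgeD V P x → x ∈ alg := by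
  constructor
  · intro h1 x hx
    have h2 := hC.fibre _ (h1 _ (oneBox_hodge per hx))
    rw [oneBox_zero] at h2
    exact h2
  · intro h1 F hF
    have h2 : boxSpan per V P ≤ algA := by
      refine Submodule.span_le.2 ?_
      rintro _ ⟨k, f, x, hf, hx, rfl⟩
      exact hC.box k f hf x (h1 x hx)
    exact h2 (h F hF)

theorem ncHodgeTimes_of_hodgeTimes {ι : Type} {E : ι → Type} [∀ i, Field (E i)]
    [∀ i, NumberField (E i)] {Φ : ∀ i, Set (E i →+* ℂ)} (h : HodgeTimes Φ) : NCHodgeTimes Φ := by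
  intro J _ t v V P hP hun
  obtain ⟨S⟩ := exists_split hP.idem
  have h1 : ∀ F, IsHodgeAD (Pool.Agent.H204R3.CM.per Φ t) V P F →
      F ∈ boxSpan (Pool.Agent.H204R3.CM.per Φ t) V P := fun F hF =>
    boxSpan_of_hodge (Pool.Agent.H204R3.CM.per Φ t) hP S
      (h J t S.r (restrict V hP S) fun i => (unrelated_iff hP S).1 (hun i)) F hF
  exact ⟨h1, fun alg algA hC => equiv_of_box _ h1 hC⟩

theorem rankCriterion_holds : RankCriterion := by
  intro E _ _ _ v V P hP hS
  obtain ⟨S⟩ := exists_split hP.idem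
  refine (unrelated_iff hP S).2 (unrelated_of_betti _ fun D hD k => ?_)
  refine lt_of_le_of_lt ?_ (hS D hD)
  rw [← S.rank, betti]
  exact (Finset.card_le_univ _).trans (by rw [Fintype.card_fin])

end

end Pool.Agent.R299.NCH
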