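import Pool.Agent.R299.NCH.Defs
import Pool.Agent.Y1.HZ.Main
import Pool.Agent.Y1.HZ.Betti

/-!
# The Hodge structure of an admissible subcategory
-/

set_option autoImplicit false
set_option linter.unusedSectionVars false
set_option linter.unusedVariables false

namespace Pool.Agent.R299.NCH

open Matrix NumberField Module Pool.Agent.H204R3.CM Pool.Agent.TH131.GHC Pool.Agent.TH504.VY
  Pool.Agent.Y1.HZ Pool.Agent.TH170.MF Pool.Agent.TH504.CB

noncomputable section

theorem cm_mul {m n k : ℕ} (A : Matrix (Fin m) (Fin n) ℚ) (B : Matrix (Fin n) (Fin k) ℚ) :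
    cm (A * B) = cm A * cm B := by
  unfold cm
  have h := Matrix.map_mul (L := A) (M := B) (f := Rat.castHom ℂ)
  exact h

theorem cm_one {n : ℕ} : cm (1 : Matrix (Fin n) (Fin n) ℚ) = 1 := by
  unfold cm
  have h := Matrix.map_one (n := Fin n) (Rat.castHom ℂ) (map_zero _) (map_one _)
  exact h

theorem cm_mulVec {m n : ℕ} (A : Matrix (Fin m) (Fin n) ℚ) (x : Fin n → ℚ) :
    cm A *ᵥ cv x = cv (A *ᵥ x) := by
  funext i
  simp only [cm, cv, Matrix.mulVec, dotProduct, Matrix.map_apply]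
  push_cast
  rfl

theorem cm_conj {m n : ℕ} (A : Matrix (Fin m) (Fin n) ℚ) : (cm A).map (starRingEnd ℂ) = cm A := by
  ext i k
  simp [cm]

theorem cm_sigma {m n : ℕ} (A : Matrix (Fin m) (Fin n) ℚ) (w : Fin n → ℂ) (σ : ℂ ≃+* ℂ) :
    (fun b => σ ((cm A *ᵥ w) b)) = cm A *ᵥ fun b => σ (w b) := by
  funext i
  simp only [cm, Matrix.mulVec, dotProduct, Matrix.map_apply, map_sum, map_mul, map_ratCast]

/-- A splitting of a projector. -/
structure Split {v : ℕ} (P : Matrix (Fin v) (Fin v) ℚ) where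
  r : ℕ
  M : Matrix (Fin v) (Fin r) ℚ
  N : Matrix (Fin r) (Fin v) ℚ
  NM : N * M = 1
  MN : M * N = P
  rank : r = P.rank

theorem exists_split {v : ℕ} {P : Matrix (Fin v) (Fin v) ℚ} (hP : P * P = P) :
    Nonempty (Split P) := by
  classical
  let p : (Fin v → ℚ) →ₗ[ℚ] (Fin v → ℚ) := Matrix.mulVecLin P
  have hp : ∀ x, p (p x) = p x := by
    intro x
    change P *ᵥ (P *ᵥ x) = P *ᵥ x
    rw [Matrix.mulVec_mulVec, hP]
  let R := LinearMap.range p
  let b := Module.finBasis ℚ R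
  let Ml : (Fin (finrank ℚ R) → ℚ) →ₗ[ℚ] (Fin v → ℚ) := R.subtype ∘ₗ b.equivFun.symm.toLinearMap
  let Nl : (Fin v → ℚ) →ₗ[ℚ] (Fin (finrank ℚ R) → ℚ) := b.equivFun.toLinearMap ∘ₗ p.rangeRestrict
  have hfix : ∀ z : R, p.rangeRestrict (z : Fin v → ℚ) = z := by
    rintro ⟨z, ⟨x, rfl⟩⟩
    exact Subtype.ext (hp x)
  have h1 : Nl ∘ₗ Ml = LinearMap.id := by
    refine LinearMap.ext fun y => ?_
    change b.equivFun (p.rangeRestrict (b.equivFun.symm y : Fin v → ℚ)) = y
    rw [hfix, LinearEquiv.apply_symm_apply]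
  have h2 : Ml ∘ₗ Nl = p := by
    refine LinearMap.ext fun x => ?_
    change ((b.equivFun.symm (b.equivFun (p.rangeRestrict x)) : R) : Fin v → ℚ) = p x
    rw [LinearEquiv.symm_apply_apply]
    rfl
  refine ⟨⟨finrank ℚ R, LinearMap.toMatrix' Ml, LinearMap.toMatrix' Nl, ?_, ?_, rfl⟩⟩
  · rw [← LinearMap.toMatrix'_comp, h1, LinearMap.toMatrix'_id]
  · rw [← LinearMap.toMatrix'_comp, h2]
    exact LinearMap.toMatrix'_toLin' P

variable {v : ℕ} {V : Coh v} {P : Matrix (Fin v) (Fin v) ℚ}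

/-- The Hodge structure of the admissible subcategory. -/
def restrict (V : Coh v) (hP : IsProjector V P) (S : Split P) : Coh S.r where
  dg := fun _ => 0
  z := cm S.N * V.z * cm S.M
  graded := fun b b' h => absurd rfl h
  real := by
    have h1 : (cm S.N * V.z * cm S.M).map (starRingEnd ℂ) =
        (cm S.N).map (starRingEnd ℂ) * V.z.map (starRingEnd ℂ) * (cm S.M).map (starRingEnd ℂ) := by
      rw [Matrix.map_mul, Matrix.map_mul]
    rw [h1, cm_conj, cm_conj, V.real, Matrix.mul_neg, Matrix.neg_mul]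
  decomp := by
    intro x
    have hMN : cm S.M * cm S.N = cm P := by rw [← cm_mul, S.MN]
    have hNM : cm S.N * cm S.M = 1 := by rw [← cm_mul, S.NM, cm_one]
    have h1 := V.decomp (cm S.M *ᵥ x)
    have h2 : x = (Matrix.mulVecLin (cm S.N)) (cm S.M *ᵥ x) := by
      change x = cm S.N *ᵥ (cm S.M *ᵥ x)
      rw [Matrix.mulVec_mulVec, hNM, Matrix.one_mulVec]
    rw [h2]
    have h3 := Submodule.mem_map_of_mem (f := Matrix.mulVecLin (cm S.N)) h1
    rw [Submodule.map_span] at h3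
    refine Submodule.span_mono ?_ h3
    rintro _ ⟨y, ⟨k, hk⟩, rfl⟩
    refine ⟨k, ?_⟩
    change (cm S.N * V.z * cm S.M) *ᵥ (cm S.N *ᵥ y) = (k : ℂ) • (cm S.N *ᵥ y)
    have hNP : cm S.N * cm P = cm S.N := by
      rw [← hMN, ← Matrix.mul_assoc, hNM, Matrix.one_mul]
    have h4 : (cm S.N * V.z * cm S.M) * cm S.N = cm S.N * V.z := by
      rw [Matrix.mul_assoc, hMN, Matrix.mul_assoc, ← hP.hodge, ← Matrix.mul_assoc, hNP]
    rw [Matrix.mulVec_mulVec, h4, ← Matrix.mulVec_mulVec, hk, Matrix.mulVec_smul]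

section rel

variable (hP : IsProjector V P) (S : Split P)

theorem hMN : cm S.M * cm S.N = cm P := by rw [← cm_mul, S.MN]

theorem hNM : cm S.N * cm S.M = 1 := by rw [← cm_mul, S.NM, cm_one]

include hP in
theorem zN : (restrict V hP S).z * cm S.N = cm S.N * V.z := by
  change (cm S.N * V.z * cm S.M) * cm S.N = cm S.N * V.z
  rw [Matrix.mul_assoc, hMN, Matrix.mul_assoc, ← hP.hodge, ← Matrix.mul_assoc, ← hMN S,
    ← Matrix.mul_assoc, hNM, Matrix.one_mul]

include hP in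
theorem Mz : cm S.M * (restrict V hP S).z = V.z * cm S.M := by
  change cm S.M * (cm S.N * V.z * cm S.M) = V.z * cm S.M
  rw [← Matrix.mul_assoc, ← Matrix.mul_assoc, hMN, hP.hodge, Matrix.mul_assoc, ← hMN S,
    Matrix.mul_assoc, hNM, Matrix.mul_one]

theorem PM : P * S.M = S.M := by
  have h := congrArg (fun Q => Q * S.M) S.MN
  beta_reduce at h
  rw [← h, Matrix.mul_assoc, S.NM, Matrix.mul_one]

theorem unrelated_iff {E : Type} [Field E] :
    Unrelated V P E ↔ UnrelatedHodge (restrict V hP S) E := by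
  constructor
  · intro h w d hw hty
    have h1 : cm S.N *ᵥ (cm S.M *ᵥ w) = w := by
      rw [Matrix.mulVec_mulVec, hNM, Matrix.one_mulVec]
    refine h (cm S.M *ᵥ w) d ?_ ?_ ?_
    · intro h0
      apply hw
      rw [← h1, h0, Matrix.mulVec_zero]
    · rw [← hMN S, ← Matrix.mulVec_mulVec, h1]
    · intro σ
      rw [cm_sigma, Matrix.mulVec_mulVec, ← Mz hP S, ← Matrix.mulVec_mulVec, hty σ,
        Matrix.mulVec_smul]
  · intro h w d hw hPw hty
    have h1 : cm S.M *ᵥ (cm S.N *ᵥ w) = w := by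
      rw [Matrix.mulVec_mulVec, hMN, hPw]
    refine h (cm S.N *ᵥ w) d ?_ ?_
    · intro h0
      apply hw
      rw [← h1, h0, Matrix.mulVec_zero]
    · intro σ
      rw [cm_sigma, Matrix.mulVec_mulVec, zN hP S, ← Matrix.mulVec_mulVec, hty σ,
        Matrix.mulVec_smul]

end rel

/-- A rational matrix applied to the values of a form. -/
def app {W : Type} [AddCommGroup W] [Module ℚ W] {m n : ℕ} (A : Matrix (Fin m) (Fin n) ℚ)
    (F : HAZ W n) : HAZ W m := fun k => (Matrix.mulVecLin A).compAlternatingMap (F k)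

theorem app_apply {W : Type} [AddCommGroup W] [Module ℚ W] {m n : ℕ}
    (A : Matrix (Fin m) (Fin n) ℚ) (F : HAZ W n) (k : ℕ) (w : Fin k → W) :
    app A F k w = A *ᵥ F k w := rfl

/-- `app` as a linear map. -/
def appL (W : Type) [AddCommGroup W] [Module ℚ W] {m n : ℕ} (A : Matrix (Fin m) (Fin n) ℚ) :
    HAZ W n →ₗ[ℚ] HAZ W m where
  toFun := app A
  map_add' := by
    intro F G
    funext k
    ext w : 1
    change A *ᵥ (F k w + G k w) = A *ᵥ F k w + A *ᵥ G k w
    exact Matrix.mulVec_add A _ _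
  map_smul' := by
    intro c F
    funext k
    ext w : 1
    change A *ᵥ (c • F k w) = c • (A *ᵥ F k w)
    exact Matrix.mulVec_smul A _ _

theorem app_cross {W : Type} [AddCommGroup W] [Module ℚ W] {m n : ℕ}
    (A : Matrix (Fin m) (Fin n) ℚ) {k : ℕ} (f : W [⋀^Fin k]→ₗ[ℚ] ℚ) (x : Fin n → ℚ) :
    app A (cross f x) = cross f (A *ᵥ x) := by
  funext l
  ext w : 1
  rw [app_apply]
  by_cases h : l = k
  · subst h
    rw [cross, cross, Pi.single_eq_same, Pi.single_eq_same]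
    change A *ᵥ (f w • x) = f w • (A *ᵥ x)
    exact Matrix.mulVec_smul A _ _
  · rw [cross, cross, Pi.single_eq_of_ne h, Pi.single_eq_of_ne h]
    change A *ᵥ (0 : Fin n → ℚ) = 0
    exact Matrix.mulVec_zero A

variable {W T : Type} [AddCommGroup W] [Module ℚ W] [AddCommGroup T] [Module ℂ T] (per : W →+ T)

/-- The complex version. -/
def appC {m n : ℕ} (A : Matrix (Fin m) (Fin n) ℂ) (F : HAZC T n) : HAZC T m :=
  fun k => ((Matrix.mulVecLin A).restrictScalars ℝ).compAlternatingMap (F k)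

theorem appC_apply {m n : ℕ} (A : Matrix (Fin m) (Fin n) ℂ) (F : HAZC T n) (k : ℕ)
    (u : Fin k → T) : appC A F k u = A *ᵥ F k u := rfl

theorem hodge_app {m n : ℕ} (A : Matrix (Fin m) (Fin n) ℚ) (V : Coh n) (V' : Coh m)
    (hA : V'.z * cm A = cm A * V.z) {F : HAZ W n} (hF : IsHodgeOnProduct per V F) :
    IsHodgeOnProduct per V' (app A F) := by
  obtain ⟨Φ, h1, h2⟩ := hF
  refine ⟨appC (cm A) Φ, ?_, ?_⟩
  · intro k w
    rw [appC_apply, h1 k w, cm_mulVec, app_apply]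
  · intro k u
    have h3 := h2 k u
    rw [Int.cast_zero, zero_smul] at h3 ⊢
    have h4 : (-Complex.I) • ∑ l, appC (cm A) Φ k (Function.update u l (Complex.I • u l)) +
        V'.z *ᵥ appC (cm A) Φ k u = cm A *ᵥ ((-Complex.I) •
          ∑ l, Φ k (Function.update u l (Complex.I • u l)) + V.z *ᵥ Φ k u) := by
      simp only [appC_apply]
      rw [Matrix.mulVec_add, Matrix.mulVec_smul, Matrix.mulVec_mulVec, Matrix.mulVec_mulVec, hA]
      congr 2
      exact (map_sum (Matrix.mulVecLin (cm A)) _ _).symm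
    rw [h4, h3, Matrix.mulVec_zero]

theorem boxSpan_of_hodge (hP : IsProjector V P) (S : Split P)
    (h : ∀ F', IsHodgeOnProduct per (restrict V hP S) F' → F' ∈ crossSpan per (restrict V hP S))
    (F : HAZ W v) (hF : IsHodgeAD per V P F) : F ∈ boxSpan per V P := by
  have h1 := h _ (hodge_app per S.N V (restrict V hP S) (zN hP S) hF.2)
  have h2 : F = appL W S.M (app S.N F) := by
    funext k
    ext w : 1
    change F k w = S.M *ᵥ (S.N *ᵥ F k w)
    rw [Matrix.mulVec_mulVec, S.MN, hF.1 k w]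
  rw [h2]
  have h3 := Submodule.mem_map_of_mem (f := appL W S.M) h1
  rw [crossSpan, Submodule.map_span] at h3
  refine Submodule.span_mono ?_ h3
  rintro _ ⟨G, ⟨k, f, x, hf, hx, rfl⟩, rfl⟩
  refine ⟨k, f, S.M *ᵥ x, hf, ⟨?_, ?_⟩, app_cross S.M f x⟩
  · rw [Matrix.mulVec_mulVec, PM]
  · change V.z *ᵥ cv (S.M *ᵥ x) = 0
    have hx' : (restrict V hP S).z *ᵥ cv x = 0 := hx
    rw [← cm_mulVec, Matrix.mulVec_mulVec, ← Mz hP S, ← Matrix.mulVec_mulVec, hx',
      Matrix.mulVec_zero]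

end

end Pool.Agent.R299.NCH
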